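import Pool.Agent.H24.SCG2.Stmts1

/-!
Project SCG2, module SWZ: the exact form of a string modulo scalars.
-/

set_option autoImplicit false

namespace Pool.Agent.H20.SCG2

open Pool.SCG Matrix

theorem one_mem_Zs (F : Type) [Field F] : (1 : Cor F) ∈ Zs F := by
  refine ⟨1, one_pow 3, rfl, ?_⟩
  show (((1 : Cor F).m : SL3 F) : Matrix (Fin 3) (Fin 3) F) = dg 1 1 1
  have h : (1 : Cor F).m = 1 := rfl
  rw [h]
  ext i j
  fin_cases i <;> fin_cases j <;> simp [dg, Matrix.one_apply]

theorem swz_thm : SWZStmt := by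
  intro F _ a b c d e h hbd
  have h1 := one_mem_Zs F
  have key : ∀ x y : Cor F, (∀ z ∈ Zs F, x * y ≠ z * (y * x)) → x * y ≠ y * x := by
    intro x y hxy he
    refine hxy 1 h1 ?_
    rw [one_mul]
    exact he
  refine ⟨h.ia, h.ib, h.ic, h.id, h.ie, h.ac, h.ad, h.ae, hbd, h.be, h.ce, key _ _ h.ab,
    key _ _ h.bc, key _ _ h.cd, key _ _ h.de, ?_, ?_⟩
  · intro hh
    exact h.v1 (Subgroup.closure_mono Set.subset_union_left hh)
  · intro hh
    exact h.v2 (Subgroup.closure_mono Set.subset_union_left hh)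

end Pool.Agent.H20.SCG2
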